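import Pool.Agent.helper12.DD.Spec2

/-!
# Project dw, module OBF: central characters on the base group of a wreath product
-/

set_option autoImplicit false

open Pool.Agent.helper49.Blk

namespace Pool.Agent.DD

section conj

variable {G Q : Type} [Group G] [Group Q]

/-- Conjugates of an element of the base group. -/
theorem OBF_conj (g x : Q → G) :
    IsConj (κι G Q g) (κι G Q x) ↔ ∃ c : Q, IsConj (shift G Q c g) x := by
  constructor
  · intro h
    obtain ⟨w, hw⟩ := isConj_iff.mp h
    refine ⟨w.right, isConj_iff.mpr ⟨w.left, ?_⟩⟩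
    apply SemidirectProduct.inl_injective (φ := shift G Q)
    rw [map_mul, map_mul, SemidirectProduct.inl_aut]
    have e : w = SemidirectProduct.inl w.left * SemidirectProduct.inr w.right :=
      (SemidirectProduct.inl_left_mul_inr_right w).symm
    rw [← hw]
    conv_rhs => rw [e]
    rw [mul_inv_rev, map_inv, map_inv]
    group
  · rintro ⟨c, h⟩
    obtain ⟨f, hf⟩ := isConj_iff.mp h
    refine isConj_iff.mpr ⟨SemidirectProduct.inl f * SemidirectProduct.inr c, ?_⟩
    rw [← hf, map_mul, map_mul, SemidirectProduct.inl_aut, map_inv, map_inv]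
    group

/-- Every conjugate of an element of the base group lies in the base group. -/
theorem OBF_base (g : Q → G) (w : Wr G Q) (h : IsConj (κι G Q g) w) : ∃ x, κι G Q x = w := by
  obtain ⟨v, hv⟩ := isConj_iff.mp h
  have h1 : w.right = 1 := by
    rw [← hv]
    simp
  refine ⟨w.left, ?_⟩
  rw [← SemidirectProduct.inl_left_mul_inr_right w]
  simp [h1]

/-- The stabiliser of the class of `g`. -/
def OBF_stab (g : Q → G) : Subgroup Q where
  carrier := {c | IsConj (shift G Q c g) g}
  one_mem' := by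
    change IsConj (shift G Q 1 g) g
    rw [map_one]
    exact IsConj.refl _
  mul_mem' := by
    intro a b ha hb
    change IsConj (shift G Q (a * b) g) g
    rw [map_mul]
    have h1 : IsConj (shift G Q a (shift G Q b g)) (shift G Q a g) :=
      MonoidHom.map_isConj (shift G Q a).toMonoidHom hb
    exact h1.trans ha
  inv_mem' := by
    intro a ha
    change IsConj (shift G Q a⁻¹ g) g
    have h1 : IsConj (shift G Q a⁻¹ (shift G Q a g)) (shift G Q a⁻¹ g) :=
      MonoidHom.map_isConj (shift G Q a⁻¹).toMonoidHom ha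
    have h2 : shift G Q a⁻¹ (shift G Q a g) = g := by
      rw [map_inv]
      exact MulEquiv.symm_apply_apply (shift G Q a) g
    rw [h2] at h1
    exact h1.symm

/-- The number of `c` with `shift c g` conjugate to `x`. -/
theorem OBF_coset [Fintype Q] (g x : Q → G) (h : IsConj (κι G Q g) (κι G Q x)) :
    Nat.card {c : Q // IsConj (shift G Q c g) x} = Nat.card (OBF_stab g) := by
  obtain ⟨c₀, hc₀⟩ := (OBF_conj g x).mp h
  refine (Nat.card_congr ?_).symm
  refine
    { toFun := fun a => ⟨c₀ * a.1, ?_⟩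
      invFun := fun c => ⟨c₀⁻¹ * c.1, ?_⟩
      left_inv := fun a => by simp
      right_inv := fun c => by simp }
  · have h1 : IsConj (shift G Q a.1 g) g := a.2
    have h2 : IsConj (shift G Q c₀ (shift G Q a.1 g)) (shift G Q c₀ g) :=
      MonoidHom.map_isConj (shift G Q c₀).toMonoidHom h1
    rw [map_mul]
    exact h2.trans hc₀
  · change IsConj (shift G Q (c₀⁻¹ * c.1) g) g
    have h1 : IsConj (shift G Q c.1 g) (shift G Q c₀ g) := c.2.trans hc₀.symm
    have h2 : IsConj (shift G Q c₀⁻¹ (shift G Q c.1 g)) (shift G Q c₀⁻¹ (shift G Q c₀ g)) :=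
      MonoidHom.map_isConj (shift G Q c₀⁻¹).toMonoidHom h1
    have h3 : shift G Q c₀⁻¹ (shift G Q c₀ g) = g := by
      rw [map_inv]
      exact MulEquiv.symm_apply_apply (shift G Q c₀) g
    rw [h3] at h2
    rw [map_mul]
    exact h2

/-- The sum over the classes of all `shift c g`. -/
theorem OBF_sum [Fintype Q] (g : Q → G) (I : Type) [Finite I] (k : I → (Q → G)) (F : I → ℂ) :
    ∑ c : Q, ∑ᶠ x ∈ {x | IsConj (shift G Q c g) (k x)}, F x =
      (Nat.card (OBF_stab g) : ℂ) * ∑ᶠ x ∈ {x | IsConj (κι G Q g) (κι G Q (k x))}, F x := by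
  classical
  have := Fintype.ofFinite I
  have e1 : ∀ S : Set I, ∑ᶠ x ∈ S, F x = ∑ x : I, if x ∈ S then F x else 0 := by
    intro S
    rw [← finsum_eq_sum_of_fintype]
    refine finsum_congr fun x => ?_
    by_cases hx : x ∈ S
    · rw [if_pos hx, finsum_eq_if, if_pos hx]
    · rw [if_neg hx, finsum_eq_if, if_neg hx]
  simp only [e1]
  rw [Finset.sum_comm, Finset.mul_sum]
  refine Finset.sum_congr rfl fun x _ => ?_
  by_cases hx : IsConj (κι G Q g) (κι G Q (k x))
  · have h1 := OBF_coset g (k x) hx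
    rw [if_pos (show x ∈ {x | IsConj (κι G Q g) (κι G Q (k x))} from hx)]
    rw [← h1, Nat.card_eq_fintype_card, Fintype.card_subtype, ← nsmul_eq_mul]
    rw [← Finset.sum_const, Finset.sum_filter]
    refine Finset.sum_congr rfl fun c _ => ?_
    rfl
  · rw [if_neg (show x ∉ {x | IsConj (κι G Q g) (κι G Q (k x))} from hx), mul_zero]
    refine Finset.sum_eq_zero fun c _ => ?_
    rw [if_neg]
    intro hc
    exact hx ((OBF_conj g (k x)).mpr ⟨c, hc⟩)

end conj

/-- Class lengths. -/
theorem OBF_card (G Q : Type) [Group G] [Finite G] [Group Q] [Fintype Q] (g : Q → G) :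
    ∑ c : Q, (Nat.card (conjugatesOf (shift G Q c g)) : ℂ) =
      (Nat.card (OBF_stab g) : ℂ) * (Nat.card (conjugatesOf (κι G Q g)) : ℂ) := by
  classical
  have := Fintype.ofFinite G
  have h := OBF_sum g (Q → G) id (fun _ => (1 : ℂ))
  have e1 : ∀ S : Set (Q → G), ∑ᶠ x ∈ S, (1 : ℂ) = (Nat.card S : ℂ) := by
    intro S
    rw [finsum_mem_eq_finite_toFinset_sum _ S.toFinite, Finset.sum_const, nsmul_eq_mul, mul_one]
    congr 1
    rw [← Set.ncard_eq_toFinset_card S S.toFinite]
    rfl
  rw [e1] at h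
  have h2 : (Nat.card ({x | IsConj (κι G Q g) (κι G Q (id x))} : Set (Q → G)) : ℂ) =
      (Nat.card (conjugatesOf (κι G Q g)) : ℂ) := by
    congr 1
    refine Nat.card_congr (Equiv.ofBijective
      (fun x => ⟨κι G Q x.1, x.2⟩ : ({x | IsConj (κι G Q g) (κι G Q (id x))} : Set (Q → G)) →
        conjugatesOf (κι G Q g)) ⟨?_, ?_⟩)
    · intro a b hab
      apply Subtype.ext
      exact SemidirectProduct.inl_injective (congrArg Subtype.val hab)
    · intro y
      obtain ⟨x, hx⟩ := OBF_base g y.1 y.2
      refine ⟨⟨x, ?_⟩, Subtype.ext hx⟩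
      change IsConj (κι G Q g) (κι G Q x)
      rw [hx]
      exact y.2
  rw [h2] at h
  rw [← h]
  refine Finset.sum_congr rfl fun c _ => ?_
  rw [e1]
  rfl

theorem OBF (hCLS : CLS_stmt) : OBF_stmt := by
  intro G Q _ _ _ _ N φ hφ ψ hψ hov χ' hχ' g
  have : Finite (Wr G Q) :=
    Finite.of_injective (fun x : Wr G Q => (x.left, x.right))
      (fun a b hab => SemidirectProduct.ext (congrArg Prod.fst hab) (congrArg Prod.snd hab))
  refine ⟨Nat.card (OBF_stab g), ?_, ?_, ?_⟩
  · exact Subgroup.card_subgroup_dvd_card _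
  · have hφ1 : φ 1 ≠ 0 := by
      obtain ⟨n, hn, e⟩ := ((IRF N).2 φ hφ).1
      rw [e]
      exact_mod_cast hn.ne'
    have hψ1 : ψ 1 ≠ 0 := by
      obtain ⟨n, hn, e⟩ := ((IRF (N.comap (κι G Q))).2 ψ hψ).1
      rw [e]
      exact_mod_cast hn.ne'
    have hinj : Function.Injective ((κι G Q).subgroupComap N) := by
      intro a b hab
      apply Subtype.ext
      exact SemidirectProduct.inl_injective (congrArg Subtype.val hab)
    have hnor : ((κι G Q).subgroupComap N).range.Normal := by
      constructor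
      rintro _ ⟨x, rfl⟩ b
      have h1 : IsConj (κι G Q x.1) ((b : Wr G Q) * κι G Q x.1 * (b : Wr G Q)⁻¹) :=
        isConj_iff.mpr ⟨b, rfl⟩
      obtain ⟨y, hy⟩ := OBF_base x.1 _ h1
      have hyN : y ∈ N.comap (κι G Q) := by
        change κι G Q y ∈ N
        rw [hy]
        exact N.mul_mem (N.mul_mem b.2 x.2) (N.inv_mem b.2)
      exact ⟨⟨y, hyN⟩, Subtype.ext hy⟩
    have hc := hCLS _ _ ((κι G Q).subgroupComap N) hinj hnor φ hφ ψ hψ hov
      {x | IsConj (κι G Q g) (κι G Q (x : Q → G))} (by
        intro b x y hxy hx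
        have h1 : IsConj (κι G Q (x : Q → G)) (κι G Q (y : Q → G)) := by
          refine isConj_iff.mpr ⟨b, ?_⟩
          exact (congrArg Subtype.val hxy).symm
        exact IsConj.trans hx h1)
    have h2 : ∑ᶠ y ∈ {y : N | IsConj (κι G Q g) (y : Wr G Q)}, φ y =
        ∑ᶠ x ∈ {x : N.comap (κι G Q) | IsConj (κι G Q g) (κι G Q (x : Q → G))},
          φ ((κι G Q).subgroupComap N x) := by
      rw [← finsum_mem_image (g := (κι G Q).subgroupComap N) (f := φ) hinj.injOn]
      refine finsum_mem_congr ?_ fun _ _ => rfl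
      ext y
      constructor
      · intro hy
        obtain ⟨x, hx⟩ := OBF_base g y.1 hy
        refine ⟨⟨x, ?_⟩, ?_, Subtype.ext hx⟩
        · change κι G Q x ∈ N
          rw [hx]
          exact y.2
        · change IsConj (κι G Q g) (κι G Q x)
          rw [hx]
          exact hy
      · rintro ⟨x, hx, rfl⟩
        exact hx
    have h3 := OBF_sum g (N.comap (κι G Q)) (fun x => (x : Q → G)) ψ
    simp only [omInd]
    rw [← Finset.sum_div, h3, h2, mul_div_assoc]
    congr 1
    rw [div_eq_div_iff hψ1 hφ1, hc]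
    ring
  · have h1 : ∀ c : Q, χ' (κι G Q (shift G Q c g)) = χ' (κι G Q g) := by
      intro c
      have e : κι G Q (shift G Q c g) =
          SemidirectProduct.inr c * κι G Q g * (SemidirectProduct.inr c)⁻¹ := by
        rw [← map_inv]
        exact SemidirectProduct.inl_aut c g
      rw [e]
      exact hχ' _ _
    simp only [omega]
    rw [← Finset.sum_div]
    simp only [h1]
    rw [← Finset.sum_mul, OBF_card, map_one]
    ring

end Pool.Agent.DD
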